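import Pool.Agent.ANI.Stmts
import Pool.Agent.Helper49_LIR.KHL
import Pool.Agent.Helper49_LQF.INM

/-!
# ANI, row SYF: the first network against the lattice
-/

set_option autoImplicit false

open MeasureTheory ProbabilityTheory Function Filter

open scoped ENNReal BigOperators Topology NNReal ComplexOrder Matrix

noncomputable section

namespace Pool.Agent.ANI.H72

open Pool.Agent.Anderson hiding box mem_box card_box
open Pool.Agent.Loc Pool.Agent.Mob Pool.Agent.Helper54.Bal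
  Pool.Agent.Helper96.EXP Pool.Agent.BED
open Pool.Agent.LE Pool.Agent.LE.MN Pool.Agent.LE.CL Pool.Agent.LE.IR Pool.Agent.LE.QD
  Pool.Agent.LE.QF
open Pool.Agent.ANI

variable {d M : ℕ} [NeZero M]

theorem pm_mono {F F' : Tor d M → ℝ} (h : ∀ p, F p ≤ F' p) : pm F ≤ pm F' := by
  unfold pm
  gcongr
  exact h _

theorem pm_comb (c a : ℝ) (F F' : Tor d M → ℝ) :
    c * (pm F + pm F' / a) = pm fun p => c * (F p + F' p / a) := by
  unfold pm
  rw [← Finset.mul_sum, Finset.sum_add_distrib, ← Finset.sum_div]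
  ring

theorem sum_sq (hFmu : FmuStmt) (f : Tor d M → ℝ) :
    ∑ x, f x ^ 2 = pm fun p => ‖ft (fun x => (f x : ℂ)) p‖ ^ 2 := by
  obtain ⟨h1, -, -, -, -, h2, -⟩ := hFmu d M (fun _ => 1) (fun _ => 1) (fun _ => rfl) (fun _ => rfl)
  rw [← Pool.Agent.LE.QF.H49.qf_one, ← h2, h1 f]
  simp only [one_mul]

theorem ft_shift (h : Tor d M → ℝ) (i : Fin d) (p : Tor d M) :
    ft (fun x => ((h (x + ev i) - h x : ℝ) : ℂ)) p =
      (ec p (ev i) - 1) * ft (fun x => (h x : ℂ)) p := by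
  unfold ft
  have h1 : ∀ z : Tor d M, (starRingEnd ℂ) (ec p (z - ev i)) =
      (starRingEnd ℂ) (ec p z) * ec p (ev i) := by
    intro z
    have h2 : ec p z = ec p (z - ev i) * ec p (ev i) := by
      rw [← Pool.Agent.LE.IR.H54.ec_add, sub_add_cancel]
    have h3 := Pool.Agent.LE.IR.H49.ec_mul_conj p (ev i)
    rw [h2, map_mul, mul_assoc, mul_comm ((starRingEnd ℂ) (ec p (ev i))), h3, mul_one]
  have h4 : ∑ y, (starRingEnd ℂ) (ec p y) * ((h (y + ev i) : ℝ) : ℂ) =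
      ∑ z, (starRingEnd ℂ) (ec p (z - ev i)) * ((h z : ℝ) : ℂ) := by
    rw [← Equiv.sum_comp (Equiv.addRight (ev i))
      (fun z => (starRingEnd ℂ) (ec p (z - ev i)) * ((h z : ℝ) : ℂ))]
    refine Finset.sum_congr rfl fun y _ => ?_
    simp only [Equiv.coe_addRight, add_sub_cancel_right]
  push_cast
  simp only [mul_sub, Finset.sum_sub_distrib]
  rw [h4]
  simp only [h1]
  rw [sub_mul, one_mul, Finset.mul_sum]
  congr 1
  refine Finset.sum_congr rfl fun z _ => ?_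
  ring

theorem lat (hFmu : FmuStmt) (h : Tor d M → ℝ) :
    ∑ x, ∑ i, (h (x + Pi.single i 1) - h x) ^ 2 =
      pm fun p => ds p * ‖ft (fun x => (h x : ℂ)) p‖ ^ 2 := by
  rw [Finset.sum_comm]
  have h1 : ∀ i : Fin d, ∑ x, (h (x + Pi.single i 1) - h x) ^ 2 =
      pm fun p => ‖ec p (ev i) - 1‖ ^ 2 * ‖ft (fun x => (h x : ℂ)) p‖ ^ 2 := by
    intro i
    have h2 := sum_sq hFmu (fun x => h (x + ev i) - h x)
    simp only [ft_shift, norm_mul, mul_pow] at h2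
    exact h2
  rw [Finset.sum_congr rfl fun i _ => h1 i]
  unfold pm
  rw [← Finset.sum_div, Finset.sum_comm]
  congr 1
  refine Finset.sum_congr rfl fun p _ => ?_
  rw [← Finset.sum_mul]
  congr 1
  unfold ds
  exact Finset.sum_congr rfl fun i _ => Pool.Agent.LE.IR.H49.ec_sub_one p i

theorem qf_eq (A : Matrix (Tor d M) (Tor d M) ℝ) (f : Tor d M → ℝ) : qf A f = f ⬝ᵥ (A *ᵥ f) := rfl

theorem qf_conj {A B : Matrix (Tor d M) (Tor d M) ℝ} (hA : ∀ x y, A x y = A y x)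
    (f : Tor d M → ℝ) : qf B (A *ᵥ f) = qf (A * B * A) f := by
  have h1 : Aᵀ = A := by
    ext x y
    exact hA y x
  rw [qf_eq, qf_eq, ← Matrix.mulVec_mulVec, ← Matrix.mulVec_mulVec, Matrix.dotProduct_mulVec f A,
    ← Matrix.mulVec_transpose, h1]

theorem dlk (hFmu : FmuStmt) (hKft : KftStmt) {ζ : ℂ} (hζ : 0 < ζ.im) (f : Tor d M → ℝ) :
    qf (Dl (KK (rs (0 : Tor d M → ℝ) ζ))) f =
      pm fun p => (kf ζ (0 : Tor d M) - kf ζ p) * ‖ft (fun x => (f x : ℂ)) p‖ ^ 2 := by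
  obtain ⟨-, -, -, k4, k5, -⟩ := hKft d M ζ hζ
  obtain ⟨m1, -, -, -, -, -, m7, -⟩ := hFmu d M (kf ζ) (kf ζ) k5 k5
  rw [k4]
  have h1 : qf (Dl (mlt (kf ζ : Tor d M → ℝ))) f =
      kf ζ (0 : Tor d M) * ∑ x, f x ^ 2 - qf (mlt (kf ζ)) f := by
    unfold Pool.Agent.LE.QF.qf Dl
    rw [Finset.mul_sum, ← Finset.sum_sub_distrib]
    refine Finset.sum_congr rfl fun x _ => ?_
    rw [Matrix.sub_mulVec, Pi.sub_apply, Matrix.mulVec_diagonal, m7]
    ring
  rw [h1, sum_sq hFmu f, m1 f]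
  unfold pm
  rw [mul_div_assoc', Finset.mul_sum, ← sub_div, ← Finset.sum_sub_distrib]
  congr 1
  refine Finset.sum_congr rfl fun p _ => ?_
  ring

theorem syf (hFmu : FmuStmt) (hKft : KftStmt) : SyfStmt := by
  intro d M _ ζ c C hζ hc hC H f
  have hk0 : 0 ≤ kf ζ (0 : Tor d M) := by
    unfold kf
    refine Finset.sum_nonneg fun x _ => ?_
    have h1 : ec (0 : Tor d M) x = 1 := by
      unfold ec
      simp
    rw [h1, Complex.one_re, mul_one]
    unfold kk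
    positivity
  have hw2 : 0 < ζ.im ^ 2 := by positivity
  have hds : ∀ p : Tor d M, 0 ≤ ds p := Pool.Agent.LE.QF.H49.ds_nonneg
  have hdsn : ∀ p : Tor d M, ds (-p) = ds p := Pool.Agent.LE.QF.H49.ds_neg
  constructor
  · obtain ⟨s, hs⟩ : ∃ s : Tor d M → ℝ, s = fun p => ζ.im ^ 2 / (ζ.im ^ 2 + ds p) := ⟨_, rfl⟩
    obtain ⟨s', hs'⟩ : ∃ s' : Tor d M → ℝ, s' = fun p => 1 - s p := ⟨_, rfl⟩
    have hsn : ∀ p, s (-p) = s p := fun p => by rw [hs]; simp only [hdsn]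
    have hsn' : ∀ p, s' (-p) = s' p := fun p => by rw [hs']; simp only [hsn]
    have hds1 : ∀ p : Tor d M, 0 < ζ.im ^ 2 + ds p := fun p => by
      have := hds p
      linarith
    have m3 : ∀ s s' : Tor d M → ℝ, (∀ p, s (-p) = s p) → (∀ p, s' (-p) = s' p) →
        mlt s * mlt s' = mlt fun p => s p * s' p := fun s s' h h' => (hFmu d M s s' h h').2.2.1
    have m2 : ∀ s : Tor d M → ℝ, (∀ p, s (-p) = s p) → ∀ x y, mlt s x y = mlt s y x :=
      fun s h => (hFmu d M s s h h).2.1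
    have m1 : ∀ s : Tor d M → ℝ, (∀ p, s (-p) = s p) → ∀ f : Tor d M → ℝ, qf (mlt s) f =
        pm fun p => s p * ‖ft (fun x => (f x : ℂ)) p‖ ^ 2 := fun s h => (hFmu d M s s h h).1
    have m4 := (hFmu d M s' s hsn' hsn).2.2.2.1
    have m6 := (hFmu d M s' s hsn' hsn).2.2.2.2.2.1
    have h1 : (fun p => s' p + s p) = fun _ : Tor d M => (1 : ℝ) := by
      funext p
      rw [hs']
      ring
    rw [h1, m6] at m4
    have h2 : ∀ x, f x - (mlt s *ᵥ f) x = (mlt s' *ᵥ f) x := by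
      intro x
      have h3 : (1 : Matrix (Tor d M) (Tor d M) ℝ) *ᵥ f = mlt s' *ᵥ f + mlt s *ᵥ f := by
        rw [m4, Matrix.add_mulVec]
      rw [Matrix.one_mulVec] at h3
      have h4 := congrFun h3 x
      rw [Pi.add_apply] at h4
      linarith
    refine ⟨mlt s *ᵥ f, ?_⟩
    have e1 : ∑ x, (f x - (mlt s *ᵥ f) x) ^ 2 =
        pm fun p => s' p * s' p * ‖ft (fun x => (f x : ℂ)) p‖ ^ 2 := by
      rw [Finset.sum_congr rfl fun x _ => by rw [h2 x], ← Pool.Agent.LE.QF.H49.qf_one,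
        qf_conj (m2 s' hsn'), mul_one, m3 s' s' hsn' hsn', m1]
      intro p
      rw [hsn']
    have e2 : ∑ x, ∑ i, ((mlt s *ᵥ f) (x + Pi.single i 1) - (mlt s *ᵥ f) x) ^ 2 =
        pm fun p => s p * ds p * s p * ‖ft (fun x => (f x : ℂ)) p‖ ^ 2 := by
      rw [lat hFmu, ← m1 ds hdsn, qf_conj (m2 s hsn), m3 s ds hsn hdsn,
        m3 (fun p => s p * ds p) s (fun p => by rw [hsn, hdsn]) hsn, m1]
      intro p
      rw [hsn, hdsn]
    rw [e1, e2, dlk hFmu hKft hζ, pm_comb]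
    refine pm_mono fun p => ?_
    have h5 : s' p * s' p + s p * ds p * s p / ζ.im ^ 2 = ds p / (ζ.im ^ 2 + ds p) := by
      rw [hs', hs]
      have := (hds1 p).ne'
      field_simp
      ring
    calc c * kf ζ (0 : Tor d M) * (s' p * s' p * ‖ft (fun x => (f x : ℂ)) p‖ ^ 2 +
          s p * ds p * s p * ‖ft (fun x => (f x : ℂ)) p‖ ^ 2 / ζ.im ^ 2) =
          c * (s' p * s' p + s p * ds p * s p / ζ.im ^ 2) * kf ζ (0 : Tor d M) *
            ‖ft (fun x => (f x : ℂ)) p‖ ^ 2 := by ring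
      _ = c * (ds p / (ζ.im ^ 2 + ds p)) * kf ζ (0 : Tor d M) *
            ‖ft (fun x => (f x : ℂ)) p‖ ^ 2 := by rw [h5]
      _ ≤ _ := mul_le_mul_of_nonneg_right (H p).1 (by positivity)
  · intro h
    have e1 := sum_sq hFmu (fun x => f x - h x)
    rw [lat hFmu, e1, dlk hFmu hKft hζ, pm_comb]
    refine pm_mono fun p => ?_
    have h1 : ft (fun x => ((f x - h x : ℝ) : ℂ)) p =
        ft (fun x => (f x : ℂ)) p - ft (fun x => (h x : ℂ)) p := by
      unfold ft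
      rw [← Finset.sum_sub_distrib]
      refine Finset.sum_congr rfl fun x _ => ?_
      push_cast
      ring
    rw [h1]
    obtain ⟨u, hu⟩ : ∃ u, u = ft (fun x => (f x : ℂ)) p := ⟨_, rfl⟩
    obtain ⟨v, hv⟩ : ∃ v, v = ft (fun x => (h x : ℂ)) p := ⟨_, rfl⟩
    rw [← hu, ← hv]
    have h2 : ‖u‖ ^ 2 ≤ 2 * ‖u - v‖ ^ 2 + 2 * ‖v‖ ^ 2 := by
      have h3 : ‖u‖ ≤ ‖u - v‖ + ‖v‖ := by
        have := norm_add_le (u - v) v
        rwa [sub_add_cancel] at this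
      have h4 := norm_nonneg u
      nlinarith [sq_nonneg (‖u - v‖ - ‖v‖)]
    obtain ⟨r, hr⟩ : ∃ r, r = ds p / (ζ.im ^ 2 + ds p) := ⟨_, rfl⟩
    have hd0 := hds p
    have hr0 : 0 ≤ r := by rw [hr]; positivity
    have hr1 : r ≤ 1 := by
      rw [hr, div_le_one (by linarith)]
      linarith
    have hr2 : r ≤ ds p / ζ.im ^ 2 := by
      rw [hr]
      gcongr
      linarith
    have h5 := (H p).2
    rw [← hr] at h5
    calc (kf ζ (0 : Tor d M) - kf ζ p) * ‖u‖ ^ 2 ≤ C * r * kf ζ (0 : Tor d M) * ‖u‖ ^ 2 :=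
          mul_le_mul_of_nonneg_right h5 (by positivity)
      _ ≤ C * r * kf ζ (0 : Tor d M) * (2 * ‖u - v‖ ^ 2 + 2 * ‖v‖ ^ 2) := by gcongr
      _ = 2 * C * kf ζ (0 : Tor d M) * (r * ‖u - v‖ ^ 2 + r * ‖v‖ ^ 2) := by ring
      _ ≤ 2 * C * kf ζ (0 : Tor d M) * (1 * ‖u - v‖ ^ 2 + ds p / ζ.im ^ 2 * ‖v‖ ^ 2) := by
          gcongr
      _ = _ := by ring

end Pool.Agent.ANI.H72
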